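import Pool.Agent.V7H78.RP.UG.A3

/-!
# Estimates for the closeness functions
-/

namespace Pool.Agent.V7H78.RP.UG

open Finset

namespace Sys

variable {Ω : Type*} [NormedField Ω] [IsUltrametricDist Ω] {S : Sys Ω}
variable {j : ℕ} {b b' z : Ω} {I I' : Type} [Fintype I] [Fintype I']

omit [IsUltrametricDist Ω] in
lemma t_pos (S : Sys Ω) : 0 < S.t := S.ht

omit [IsUltrametricDist Ω] in
lemma log_e (S : Sys Ω) (j : ℕ) : Real.log (S.e j) = ((S.d : ℝ) ^ j - 1) * S.V := by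
  unfold Sys.e
  rw [Real.log_exp]

omit [IsUltrametricDist Ω] in
lemma dR (S : Sys Ω) : (2 : ℝ) ≤ S.d := by exact_mod_cast S.hd

omit [IsUltrametricDist Ω] in
lemma dpow_pos (S : Sys Ω) (j : ℕ) : (0 : ℝ) < (S.d : ℝ) ^ j :=
  pow_pos (by linarith [S.dR]) j

omit [IsUltrametricDist Ω] in
lemma one_le_dpow (S : Sys Ω) (j : ℕ) : (1 : ℝ) ≤ (S.d : ℝ) ^ j :=
  one_le_pow₀ (by linarith [S.dR])

/-- sum of logs over a fibre -/
lemma sum_log {ζ : I → Ω} (h : S.IsRS j b ζ) (hz : 0 < ‖S.F^[j] z - b‖) :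
    ∑ l, (- Real.log ‖z - ζ l‖) =
      ((S.d : ℝ) ^ j - 1) * S.V - Real.log ‖S.F^[j] z - b‖ := by
  have h1 : ∏ l, ‖z - ζ l‖ ≠ 0 := Finset.prod_ne_zero_iff.mpr fun l _ => (rs_pos h hz l).ne'
  rw [h.2 z, Real.log_mul (S.e_pos j).ne' h1, log_e, Finset.sum_neg_distrib,
    Real.log_prod (fun l _ => (rs_pos h hz l).ne')]
  ring

/-- A fibre is spread over the disc. -/
lemma rs_spread {ζ : I → Ω} (h : S.IsRS j b ζ) (hj : j ≠ 0) (hb : S.D b) (hz : S.D z) :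
    ∃ l, ‖z - ζ l‖ = S.R := by
  by_contra hcon
  push Not at hcon
  obtain ⟨p, hpD, hp, hzp⟩ := exists_far hz
  have h1 : ∀ l, ‖p - ζ l‖ = S.R := by
    intro l
    have h2 : ‖ζ l - z‖ < ‖z - p‖ := by
      rw [nsc, hzp]
      exact lt_of_le_of_ne (D_sub hz (rs_D h hb l)) (hcon l)
    rw [nsc, tri_lt h2, hzp]
  have h2 := h.2 p
  simp_rw [h1] at h2
  rw [Finset.prod_const, Finset.card_univ, h.1] at h2
  have h3 : ‖S.F^[j] p - b‖ ≤ S.R := D_sub (hp j) hb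
  rw [h2] at h3
  have h4 : Real.log (S.e j * S.R ^ (S.d ^ j)) ≤ Real.log S.R :=
    Real.log_le_log (mul_pos (S.e_pos j) (pow_pos S.hR _)) h3
  rw [Real.log_mul (S.e_pos j).ne' (pow_pos S.hR _).ne', log_e, Real.log_pow] at h4
  have h5 := S.t_pos
  unfold Sys.t at h5
  have h6 : (1 : ℝ) < (S.d : ℝ) ^ j := one_lt_pow₀ (by linarith [S.dR]) hj
  push_cast at h4
  have h7 : ((S.d : ℝ) ^ j - 1) * (S.V + Real.log S.R) ≤ 0 := by linarith
  have h8 : 0 < ((S.d : ℝ) ^ j - 1) * (S.V + Real.log S.R) :=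
    mul_pos (by linarith) h5
  linarith

/-- the first closeness -/
lemma h_one (hz : S.D z) (h : S.D (S.F^[1] z)) : S.V ≤ S.h 1 z := by
  classical
  obtain ⟨b, ζ, l₀, hbD, hb, hζ, hr, hmin⟩ := r_spec h
  obtain ⟨l₁, hl₁⟩ := rs_spread hζ one_ne_zero hbD hz
  have h1 := sum_log hζ (z := z) (by rw [hb]; exact S.hR)
  rw [hb, show ((S.d : ℝ) ^ 1) = S.d from pow_one _,
    ← Finset.add_sum_erase _ _ (Finset.mem_univ l₁), hl₁] at h1
  have h2 : ∑ l ∈ Finset.univ.erase l₁, -Real.log ‖z - ζ l‖ ≤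
      ∑ l ∈ Finset.univ.erase l₁, S.h 1 z := by
    apply Finset.sum_le_sum
    intro l _
    unfold Sys.h
    apply neg_le_neg
    exact Real.log_le_log (r_pos h) (hmin l)
  rw [Finset.sum_const, Finset.card_erase_of_mem (Finset.mem_univ _), Finset.card_univ,
    Fintype.card_fin, nsmul_eq_mul, Nat.cast_sub (Nat.one_le_pow _ _ S.d_pos), Nat.cast_pow,
    show ((S.d : ℝ) ^ 1) = S.d from pow_one _, Nat.cast_one] at h2
  have h3 : ((S.d : ℝ) - 1) * S.V ≤ ((S.d : ℝ) - 1) * S.h 1 z := by linarith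
  exact le_of_mul_le_mul_left h3 (by linarith [S.dR])

/-- the closeness increases with the level -/
lemma h_succ (h0 : S.D (S.F^[j] z)) (h1 : S.D (S.F^[j + 1] z)) :
    S.h j z + S.t / (S.d : ℝ) ^ j ≤ S.h (j + 1) z := by
  classical
  set w := S.F^[j] z with hw
  have hFw : S.F^[1] w = S.F^[j + 1] z := by
    rw [hw, Function.iterate_one, Function.iterate_succ_apply']
  have h1w : S.D (S.F^[1] w) := by rw [hFw]; exact h1
  obtain ⟨b, η, l₀, hbD, hb, hη, hr, hmin⟩ := r_spec h1w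
  choose ζ hζ using exists_rs S j
  have hcomp := rs_comp hη (fun i => hζ (η i)) (by simp)
  rw [add_comm 1 j] at hcomp
  have hωD : S.D (η l₀) := rs_D hη hbD l₀
  -- the distance of `z` to the fibre of `η l₀`
  obtain ⟨l₁, hl₁⟩ := r_near h0 hωD (hζ (η l₀))
  haveI : Nonempty (Fin (S.d ^ j)) := ⟨l₁⟩
  obtain ⟨l₂, _, hl₂⟩ := Finset.exists_min_image (Finset.univ : Finset (Fin (S.d ^ j)))
    (fun l => ‖z - ζ (η l₀) l‖) Finset.univ_nonempty
  set s := ‖z - ζ (η l₀) l₂‖ with hs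
  have hs1 : s ≤ S.r j z := (hl₂ l₁ (Finset.mem_univ _)).trans hl₁
  have hwη : ‖w - η l₀‖ = S.r 1 w := hr.symm
  have hwpos : 0 < ‖w - η l₀‖ := by rw [hwη]; exact r_pos h1w
  have hspos : 0 < s := rs_pos (hζ (η l₀)) (by rw [← hw]; exact hwpos) l₂
  have hs2 : S.r (j + 1) z ≤ s := by
    have := r_far h1 hcomp hbD (by rw [← hFw]; exact hb) (l₀, l₂)
    exact this
  obtain ⟨b₁, ζ₁, l₃, hb₁D, hb₁, hζ₁, hr₁, hmin₁⟩ := r_spec h0
  have hkey : ∀ ε : ℝ, 0 < ε → Real.log S.R < Real.log (S.r 1 w) +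
      (S.d : ℝ) ^ j * (Real.log (S.r j z) + ε - Real.log s) := by
    intro ε hε
    set s' := S.r j z * Real.exp ε with hs'
    have hrj := r_pos h0
    have hs'1 : S.r j z < s' := by
      rw [hs']
      have : 1 < Real.exp ε := Real.one_lt_exp_iff.mpr hε
      nlinarith
    have hs'0 : 0 < s' := hrj.trans hs'1
    have hc := core hζ₁ (hζ (η l₀)) (D_sub hb₁D hωD) hb₁ l₃ s' (by rw [← hr₁]; exact hs'1)
    have hle : ∀ l, max s' ‖z - ζ (η l₀) l‖ ≤ ‖z - ζ (η l₀) l‖ * (s' / s) := by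
      intro l
      have hsl : s ≤ ‖z - ζ (η l₀) l‖ := hl₂ l (Finset.mem_univ _)
      have hss : 1 ≤ s' / s := by
        rw [one_le_div hspos]
        exact hs1.trans hs'1.le
      apply max_le
      · calc s' = s * (s' / s) := by field_simp
          _ ≤ _ := mul_le_mul_of_nonneg_right hsl (by positivity)
      · calc ‖z - ζ (η l₀) l‖ = ‖z - ζ (η l₀) l‖ * 1 := (mul_one _).symm
          _ ≤ _ := mul_le_mul_of_nonneg_left hss (norm_nonneg _)
    have hprod : S.e j * ∏ l, max s' ‖z - ζ (η l₀) l‖ ≤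
        S.r 1 w * (s' / s) ^ (S.d ^ j) := by
      calc S.e j * ∏ l, max s' ‖z - ζ (η l₀) l‖
          ≤ S.e j * ∏ l, (‖z - ζ (η l₀) l‖ * (s' / s)) := by
            apply mul_le_mul_of_nonneg_left _ (S.e_pos j).le
            exact Finset.prod_le_prod (fun l _ => le_max_of_le_left hs'0.le) fun l _ => hle l
        _ = (S.e j * ∏ l, ‖z - ζ (η l₀) l‖) * (s' / s) ^ (S.d ^ j) := by
            rw [Finset.prod_mul_distrib, Finset.prod_const, Finset.card_univ, Fintype.card_fin]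
            ring
        _ = S.r 1 w * (s' / s) ^ (S.d ^ j) := by
            rw [← (hζ (η l₀)).2 z, ← hwη, ← hw]
    have h2 := Real.log_lt_log S.hR (hc.trans_le hprod)
    rw [Real.log_mul (r_pos h1w).ne' (by positivity), Real.log_pow,
      Real.log_div hs'0.ne' hspos.ne', hs', Real.log_mul hrj.ne' (Real.exp_pos _).ne',
      Real.log_exp] at h2
    push_cast at h2
    exact h2
  have hD := S.dpow_pos j
  have hV : S.V ≤ S.h 1 w := h_one h0 h1w
  have hle : Real.log S.R ≤ Real.log (S.r 1 w) +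
      (S.d : ℝ) ^ j * (Real.log (S.r j z) - Real.log s) := by
    by_contra hcon
    push Not at hcon
    have h2 := hkey ((Real.log S.R - (Real.log (S.r 1 w) +
      (S.d : ℝ) ^ j * (Real.log (S.r j z) - Real.log s))) / (S.d : ℝ) ^ j)
      (div_pos (by linarith) hD)
    have h3 : (S.d : ℝ) ^ j * (Real.log (S.r j z) + (Real.log S.R - (Real.log (S.r 1 w) +
      (S.d : ℝ) ^ j * (Real.log (S.r j z) - Real.log s))) / (S.d : ℝ) ^ j - Real.log s) =
      (S.d : ℝ) ^ j * (Real.log (S.r j z) - Real.log s) + (Real.log S.R - (Real.log (S.r 1 w) +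
      (S.d : ℝ) ^ j * (Real.log (S.r j z) - Real.log s))) := by
      field_simp
      ring
    rw [h3] at h2
    linarith
  have hlogs : Real.log (S.r (j + 1) z) ≤ Real.log s := Real.log_le_log (r_pos h1) hs2
  unfold Sys.h at hV ⊢
  have h4 : S.t ≤ (S.d : ℝ) ^ j * (Real.log (S.r j z) - Real.log s) := by
    unfold Sys.t
    linarith
  have h5 : S.t / (S.d : ℝ) ^ j ≤ Real.log (S.r j z) - Real.log s := by
    rw [div_le_iff₀ hD]
    linarith
  linarith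

/-- upper bound for the closeness of a generic fibre -/
lemma log_le_of_generic {ζ : I → Ω} (hζ : S.IsRS j b ζ) (hbD : S.D b) (hzD : S.D z)
    (hb : ‖S.F^[j] z - b‖ = S.R) (l : I) :
    - Real.log ‖z - ζ l‖ ≤ S.V + ((S.d : ℝ) ^ j - 2) * S.t := by
  classical
  have h1 := sum_log hζ (z := z) (by rw [hb]; exact S.hR)
  rw [hb, ← Finset.add_sum_erase _ _ (Finset.mem_univ l)] at h1
  have h2 : ∑ l' ∈ Finset.univ.erase l, -Real.log S.R ≤
      ∑ l' ∈ Finset.univ.erase l, -Real.log ‖z - ζ l'‖ := by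
    apply Finset.sum_le_sum
    intro l' _
    apply neg_le_neg
    exact Real.log_le_log (rs_pos hζ (by rw [hb]; exact S.hR) l') (D_sub hzD (rs_D hζ hbD l'))
  rw [Finset.sum_const, Finset.card_erase_of_mem (Finset.mem_univ _), Finset.card_univ,
    hζ.1, nsmul_eq_mul, Nat.cast_sub (Nat.one_le_pow _ _ S.d_pos), Nat.cast_pow,
    Nat.cast_one] at h2
  unfold Sys.t
  nlinarith

lemma h_le (hzD : S.D z) (h : S.D (S.F^[j] z)) :
    S.h j z ≤ S.V + ((S.d : ℝ) ^ j - 2) * S.t := by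
  obtain ⟨b, ζ, l₀, hbD, hb, hζ, hr, hmin⟩ := r_spec h
  have := log_le_of_generic hζ hbD hzD hb l₀
  rwa [← hr] at this

/-- generic points -/
lemma exists_generic (S : Sys Ω) (T : Finset Ω) (hT : ∀ s ∈ T, S.D s) :
    ∃ b : ℕ → Ω, (∀ i, S.D (b i)) ∧ (∀ i, ∀ s ∈ T, ‖b i - s‖ = S.R) ∧
      ∀ i j, i ≠ j → ‖b i - b j‖ = S.R := by
  classical
  set u := S.x₀ - S.z₀ with hu
  have hub : ∀ n : ℕ, n ≠ 0 → ‖(n : Ω) * u‖ = S.R := by
    intro n hn
    rw [norm_mul, S.nat n hn, one_mul, hu, S.hxz]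
  have hle : ∀ n : ℕ, S.D (S.x₀ + n * u) := by
    intro n
    unfold Sys.D
    rw [add_sub_cancel_left]
    by_cases hn : n = 0
    · subst hn
      simp [S.hR.le]
    · rw [hub n hn]
  have hdiff : ∀ n m : ℕ, n < m → ‖(S.x₀ + n * u) - (S.x₀ + m * u)‖ = S.R := by
    intro n m hnm
    have h1 : (S.x₀ + n * u) - (S.x₀ + m * u) = -(((m - n : ℕ) : Ω) * u) := by
      rw [Nat.cast_sub hnm.le]
      ring
    rw [h1, norm_neg, hub _ (by omega)]
  have hone : ∀ s, S.D s → ∃ n₀ : ℕ, ∀ n, n₀ ≤ n → ‖(S.x₀ + n * u) - s‖ = S.R := by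
    intro s hs
    by_cases hbad : ∃ m : ℕ, ‖(S.x₀ + m * u) - s‖ ≠ S.R
    · obtain ⟨m, hm⟩ := hbad
      refine ⟨m + 1, fun n hn => ?_⟩
      have h1 : ‖(S.x₀ + m * u) - s‖ < S.R := lt_of_le_of_ne (D_sub (hle m) hs) hm
      have h2 : ‖s - (S.x₀ + m * u)‖ < ‖(S.x₀ + m * u) - (S.x₀ + n * u)‖ := by
        rw [nsc s, hdiff m n (by omega)]
        exact h1
      rw [nsc, tri_lt h2, hdiff m n (by omega)]
    · push Not at hbad
      exact ⟨0, fun n _ => hbad n⟩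
  have hall : ∃ n₀ : ℕ, ∀ n, n₀ ≤ n → ∀ s ∈ T, ‖(S.x₀ + n * u) - s‖ = S.R := by
    choose! N hN using hone
    refine ⟨T.sup N, fun n hn s hs => hN s (hT s hs) n ?_⟩
    exact (Finset.le_sup hs).trans hn
  obtain ⟨n₀, hn₀⟩ := hall
  refine ⟨fun i => S.x₀ + ((n₀ + i : ℕ) : Ω) * u, fun i => hle _, fun i s hs =>
    hn₀ _ (by omega) s hs, ?_⟩
  intro i j hij
  rcases lt_or_gt_of_ne hij with h | h
  · exact hdiff _ _ (by omega)
  · show ‖(S.x₀ + ((n₀ + i : ℕ) : Ω) * u) - (S.x₀ + ((n₀ + j : ℕ) : Ω) * u)‖ = S.R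
    rw [nsc]
    exact hdiff _ _ (by omega)

end Sys

end Pool.Agent.V7H78.RP.UG
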