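import Pool.Agent.V7H78.RP.UB.Pl

/-!
# Orders of interpolation determinants
-/

namespace Pool.Agent.V7H78.RP.UG

open Pool.Agent.V7H78.RP.UB Finset

/-- The degree of a monomial. -/
def mdeg (q : ℕ × Bool) : ℕ := q.1 + q.2.toNat

lemma card_le_of_deg (e : ℕ) (T : Finset (ℕ × Bool)) (h : ∀ q ∈ T, mdeg q ≤ e) :
    T.card ≤ 2 * e + 1 := by
  classical
  have h1 : T.card ≤ (Finset.range (2 * e + 1)).card := by
    apply Finset.card_le_card_of_injOn (fun q => 2 * q.1 + q.2.toNat)
    · rintro ⟨a, b⟩ hq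
      have h2 := h _ hq
      simp only [mdeg] at h2
      simp only [Finset.coe_range, Set.mem_Iio]
      cases b <;> simp at h2 ⊢ <;> omega
    · rintro ⟨a, b⟩ _ ⟨a', b'⟩ _ h2
      simp only at h2
      cases b <;> cases b' <;> simp at h2 ⊢ <;> omega
  simpa using h1

lemma sum_deg (n : ℕ) : ∀ T : Finset (ℕ × Bool), T.card = n → n ^ 2 / 4 ≤ ∑ q ∈ T, mdeg q := by
  classical
  induction n with
  | zero => intro T _; simp
  | succ n ih =>
    intro T hT
    have hne : T.Nonempty := Finset.card_pos.mp (by omega)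
    obtain ⟨q, hq, hmax⟩ := Finset.exists_max_image T mdeg hne
    have h1 := card_le_of_deg (mdeg q) T hmax
    have h2 := ih (T.erase q) (by rw [Finset.card_erase_of_mem hq, hT]; rfl)
    rw [← Finset.add_sum_erase _ _ hq]
    have h3 : (n + 1) ^ 2 / 4 ≤ n ^ 2 / 4 + (n + 1) / 2 := by
      rcases Nat.even_or_odd' n with ⟨c, hc | hc⟩
      · subst hc
        have e1 : (2 * c + 1) ^ 2 = 4 * (c * c + c) + 1 := by ring
        have e2 : (2 * c) ^ 2 = 4 * (c * c) := by ring
        rw [e1, e2]
        omega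
      · subst hc
        have e1 : (2 * c + 1 + 1) ^ 2 = 4 * (c * c + 2 * c + 1) := by ring
        have e2 : (2 * c + 1) ^ 2 = 4 * (c * c + c) + 1 := by ring
        rw [e1, e2]
        omega
    omega

lemma sum_deg_four (T : Finset (ℕ × Bool)) : T.card ^ 2 - 1 ≤ 4 * ∑ q ∈ T, mdeg q := by
  have h := sum_deg T.card T rfl
  have h2 : T.card ^ 2 % 4 ≤ 1 := by
    rcases Nat.even_or_odd' T.card with ⟨c, hc | hc⟩
    · rw [hc]
      have : (2 * c) ^ 2 = 4 * (c * c) := by ring
      omega
    · rw [hc]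
      have : (2 * c + 1) ^ 2 = 4 * (c * c + c) + 1 := by ring
      omega
  omega

lemma sum_deg_inj {I : Type*} [Fintype I] (ν : I → ℕ × Bool) (h : Function.Injective ν) :
    ((Fintype.card I : ℤ) ^ 2 - 1) ≤ 4 * ∑ j, (mdeg (ν j) : ℤ) := by
  classical
  have h1 := sum_deg_four (Finset.univ.image ν)
  rw [Finset.card_image_of_injective _ h, Finset.card_univ,
    Finset.sum_image (fun a _ b _ hab => h hab)] at h1
  have h2 : ((Fintype.card I ^ 2 - 1 : ℕ) : ℤ) ≤ 4 * ∑ j, (mdeg (ν j) : ℤ) := by
    exact_mod_cast h1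
  have h3 : (Fintype.card I : ℤ) ^ 2 - 1 ≤ ((Fintype.card I ^ 2 - 1 : ℕ) : ℤ) := by
    have h4 : ((Fintype.card I ^ 2 : ℕ) : ℤ) = (Fintype.card I : ℤ) ^ 2 := by push_cast; ring
    rw [← h4]
    omega
  exact h3.trans h2

variable {k K : Type*} [Field k] [Field K] [Algebra k K] {Q : PlaceData k K} {v : Q.Pl}

/-- Four times the order is at least `B`. -/
def G4 (Q : PlaceData k K) (v : Q.Pl) (B : ℤ) (z : K) : Prop := z ≠ 0 → B ≤ 4 * Q.ord v z

lemma G4_iff (B : ℤ) (z : K) : G4 Q v B z ↔ Q.G v ((B + 3) / 4) z := by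
  constructor
  · intro h hz
    have := h hz
    omega
  · intro h hz
    have := h hz
    omega

lemma G4_sum {α : Type*} (s : Finset α) (f : α → K) (B : ℤ) (h : ∀ a ∈ s, G4 Q v B (f a)) :
    G4 Q v B (∑ a ∈ s, f a) := by
  rw [G4_iff]
  exact PlaceData.G_sum s f fun a ha => (G4_iff B _).mp (h a ha)

/-- The interpolation matrix (indexed by monomial, point). -/
def mat {I : Type*} (x w : I → K) (μ : I → ℕ × Bool) : Matrix I I K :=
  Matrix.of fun j i => x i ^ (μ j).1 * w i ^ (μ j).2.toNat

/-- determinants with weighted rows -/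
lemma G_det_row {I : Type*} [Fintype I] [DecidableEq I] (M : Matrix I I K) (β : I → ℤ)
    (h : ∀ j i, Q.G v (β j) (M j i)) : Q.G v (∑ j, β j) M.det := by
  rw [Matrix.det_apply]
  apply PlaceData.G_sum
  intro σ _
  have h1 : Q.G v (∑ i, β (σ i)) (∏ i, M (σ i) i) :=
    PlaceData.G_prod _ _ _ fun i _ => h (σ i) i
  rw [Equiv.sum_comp σ β] at h1
  rcases Int.units_eq_one_or (Equiv.Perm.sign σ) with h3 | h3
  · rw [h3, one_smul]
    exact h1
  · rw [h3]
    have : (-1 : ℤˣ) • ∏ i, M (σ i) i = -∏ i, M (σ i) i := by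
      rw [Units.smul_def]
      simp
    rw [this]
    exact PlaceData.G_neg h1

/-- multilinear expansion of a determinant along rows -/
lemma det_expand {I J : Type*} [Fintype I] [DecidableEq I] [DecidableEq J] (s : I → Finset J)
    (c : I → J → K) (φ : J → I → K) (M : Matrix I I K)
    (hM : ∀ j i, M j i = ∑ q ∈ s j, c j q * φ q i) :
    M.det = ∑ r ∈ Fintype.piFinset s, (∏ j, c j (r j)) * (Matrix.of fun j i => φ (r j) i).det := by
  have h1 : M.det = Matrix.detRowAlternating.toMultilinearMap (fun j => ∑ q ∈ s j, c j q • φ q) := by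
    show M.det = Matrix.det _
    congr 1
    ext j i
    rw [hM]
    simp [Finset.sum_apply]
  rw [h1, MultilinearMap.map_sum_finset]
  apply Finset.sum_congr rfl
  intro r _
  rw [MultilinearMap.map_smul_univ]
  rfl

/-- expansion of a determinant along a partition of the points -/
lemma det_split {I : Type*} [Fintype I] [DecidableEq I] (M : Matrix I I K) (p : I → Prop)
    [DecidablePred p] :
    M.det = ∑ ε : I → Bool, (Matrix.of fun j i => if (p i ↔ ε j = true) then M j i else 0).det := by
  have h1 : M.det = Matrix.detRowAlternating.toMultilinearMap (fun j => ∑ b : Bool,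
      (fun i => if (p i ↔ b = true) then M j i else 0)) := by
    show M.det = Matrix.det _
    congr 1
    ext j i
    simp only [Fintype.sum_bool, Pi.add_apply]
    by_cases h : p i <;> simp [h]
  rw [h1, MultilinearMap.map_sum]
  rfl

/-- A configuration of points with controlled differences. -/
structure Conf (Q : PlaceData k K) (v : Q.Pl) {I : Type*} (x w : I → K) (o : I → I → ℕ)
    (ℓ : ℤ) : Prop where
  oii : ∀ i, o i i = 0
  ne : ∀ i j, i ≠ j → x i ≠ x j
  ordo : ∀ i j, i ≠ j → Q.ord v (x i - x j) = o i j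
  hx : ∀ i, Q.G v 0 (x i)
  hw : ∀ i, Q.G v (-ℓ) (w i)
  hww : ∀ i j, i ≠ j → Q.G v (o i j - ℓ) (w i - w j)

/-- total pair order -/
def EE {I : Type*} [Fintype I] (o : I → I → ℕ) : ℕ := ∑ i, ∑ j, o i j

/-- total nearest predecessor order -/
def MM {I : Type*} [Fintype I] (rk : I → ℕ) (o : I → I → ℕ) : ℕ :=
  ∑ i, (Finset.univ.filter fun j => rk j < rk i).sup (o i)

/-- number of second kind monomials -/
def BB {I : Type*} [Fintype I] (μ : I → ℕ × Bool) : ℤ := ∑ j, ((μ j).2.toNat : ℤ)

lemma Conf.sub {I : Type*} {x w : I → K} {o : I → I → ℕ} {ℓ : ℤ} (h : Conf Q v x w o ℓ)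
    {p : I → Prop} : Conf Q v (fun i : {i // p i} => x i.1) (fun i => w i.1)
      (fun i j => o i.1 j.1) ℓ where
  oii := fun i => h.oii i.1
  ne := fun _ _ hij => h.ne _ _ fun h' => hij (Subtype.ext h')
  ordo := fun _ _ hij => h.ordo _ _ fun h' => hij (Subtype.ext h')
  hx := fun i => h.hx i.1
  hw := fun i => h.hw i.1
  hww := fun _ _ hij => h.hww _ _ fun h' => hij (Subtype.ext h')

/-- The splitting step. -/
lemma split_step {I : Type*} [Fintype I] [DecidableEq I] (x w : I → K) (o : I → I → ℕ) (ℓ : ℤ)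
    (rk : I → ℕ) (p : I → Prop) [DecidablePred p]
    (hcross : ∀ i j, p i → ¬ p j → o i j = 0 ∧ o j i = 0)
    (h1 : ∀ μ : {i // p i} → ℕ × Bool, Function.Injective μ →
      G4 Q v (EE (fun i j : {i // p i} => o i.1 j.1) +
        MM (fun i : {i // p i} => rk i.1) (fun i j => o i.1 j.1) - 4 * ℓ * BB μ)
        (mat (fun i : {i // p i} => x i.1) (fun i => w i.1) μ).det)
    (h2 : ∀ μ : {i // ¬ p i} → ℕ × Bool, Function.Injective μ →
      G4 Q v (EE (fun i j : {i // ¬ p i} => o i.1 j.1) +
        MM (fun i : {i // ¬ p i} => rk i.1) (fun i j => o i.1 j.1) - 4 * ℓ * BB μ)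
        (mat (fun i : {i // ¬ p i} => x i.1) (fun i => w i.1) μ).det)
    (μ : I → ℕ × Bool) (hμ : Function.Injective μ) :
    G4 Q v (EE o + MM rk o - 4 * ℓ * BB μ) (mat x w μ).det := by
  classical
  rw [det_split (mat x w μ) p]
  apply G4_sum
  intro ε _
  by_cases hσ : ∃ σ : Equiv.Perm I, ∀ j, p (σ j) ↔ ε j = true
  · obtain ⟨σ, hσ⟩ := hσ
    set N : Matrix I I K := Matrix.of fun j i =>
      if (p i ↔ ε j = true) then mat x w μ j i else 0 with hN
    set N' : Matrix I I K := Matrix.of fun j i => N (σ.symm j) i with hN'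
    have hdet : N'.det = Equiv.Perm.sign σ.symm * N.det := Matrix.det_permute σ.symm N
    have hN'e : ∀ j i, N' j i = if (p i ↔ p j) then mat x w (μ ∘ σ.symm) j i else 0 := by
      intro j i
      have h3 := hσ (σ.symm j)
      rw [Equiv.apply_symm_apply] at h3
      simp only [hN', hN, Matrix.of_apply, ← h3, mat, Function.comp_apply]
    have hblock := Matrix.twoBlockTriangular_det N' p (by
      intro i hi j hj
      rw [hN'e, if_neg]
      intro h
      exact hi (h.mp hj))
    have hb1 : Matrix.toSquareBlockProp N' p =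
        mat (fun i : {i // p i} => x i.1) (fun i => w i.1) (fun i => (μ ∘ σ.symm) i.1) := by
      ext ⟨j, hj⟩ ⟨i, hi⟩
      show N' j i = mat x w (μ ∘ σ.symm) j i
      rw [hN'e, if_pos (by simp [hi, hj])]
    have hb2 : Matrix.toSquareBlockProp N' (fun i => ¬ p i) =
        mat (fun i : {i // ¬ p i} => x i.1) (fun i => w i.1) (fun i => (μ ∘ σ.symm) i.1) := by
      ext ⟨j, hj⟩ ⟨i, hi⟩
      show N' j i = mat x w (μ ∘ σ.symm) j i
      rw [hN'e, if_pos (by simp [hi, hj])]
    have hinj : Function.Injective (μ ∘ σ.symm) := hμ.comp σ.symm.injective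
    have g1 := h1 (fun i => (μ ∘ σ.symm) i.1) (fun a b hab => Subtype.ext (hinj hab))
    have g2 := h2 (fun i => (μ ∘ σ.symm) i.1) (fun a b hab => Subtype.ext (hinj hab))
    rw [hblock, hb1, hb2] at hdet
    intro hz
    have hz' : N.det ≠ 0 := hz
    have hsign : ((Equiv.Perm.sign σ.symm : ℤ) : K) ≠ 0 := by
      rcases Int.units_eq_one_or (Equiv.Perm.sign σ.symm) with h3 | h3 <;> rw [h3] <;> simp
    have hsord : Q.ord v ((Equiv.Perm.sign σ.symm : ℤ) : K) = 0 := by
      rcases Int.units_eq_one_or (Equiv.Perm.sign σ.symm) with h3 | h3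
      · rw [h3]
        simpa using PlaceData.ord_one (Q := Q) (v := v)
      · rw [h3]
        have := PlaceData.ord_neg (Q := Q) (v := v) (one_ne_zero (α := K))
        rw [PlaceData.ord_one] at this
        simpa using this
    have hprod : (mat (fun i : {i // p i} => x i.1) (fun i => w i.1)
        (fun i => (μ ∘ σ.symm) i.1)).det *
        (mat (fun i : {i // ¬ p i} => x i.1) (fun i => w i.1)
        (fun i => (μ ∘ σ.symm) i.1)).det ≠ 0 := by
      rw [hdet]
      exact mul_ne_zero hsign hz'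
    have e1 := left_ne_zero_of_mul hprod
    have e2 := right_ne_zero_of_mul hprod
    have e3 := congrArg (Q.ord v) hdet
    rw [Q.ord_mul v _ _ e1 e2, Q.ord_mul v _ _ hsign hz', hsord, zero_add] at e3
    have f1 := g1 e1
    have f2 := g2 e2
    -- sums
    have hBB : BB (fun i : {i // p i} => (μ ∘ σ.symm) i.1) +
        BB (fun i : {i // ¬ p i} => (μ ∘ σ.symm) i.1) = BB μ := by
      unfold BB
      rw [Fintype.sum_subtype_add_sum_subtype p (fun j => (((μ ∘ σ.symm) j).2.toNat : ℤ))]
      exact Equiv.sum_comp σ.symm fun j => ((μ j).2.toNat : ℤ)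
    have hEE : EE o ≤ EE (fun i j : {i // p i} => o i.1 j.1) +
        EE (fun i j : {i // ¬ p i} => o i.1 j.1) := by
      unfold EE
      rw [← Fintype.sum_subtype_add_sum_subtype p (fun i => ∑ j, o i j)]
      apply add_le_add
      · apply Finset.sum_le_sum
        intro i _
        rw [← Fintype.sum_subtype_add_sum_subtype p (fun j => o i.1 j)]
        have : ∑ j : {i // ¬ p i}, o i.1 j.1 = 0 :=
          Finset.sum_eq_zero fun j _ => (hcross _ _ i.2 j.2).1
        rw [this, add_zero]
      · apply Finset.sum_le_sum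
        intro i _
        rw [← Fintype.sum_subtype_add_sum_subtype p (fun j => o i.1 j)]
        have : ∑ j : {i // p i}, o i.1 j.1 = 0 :=
          Finset.sum_eq_zero fun j _ => (hcross _ _ j.2 i.2).2
        rw [this, zero_add]
    have hMM : MM rk o ≤ MM (fun i : {i // p i} => rk i.1) (fun i j => o i.1 j.1) +
        MM (fun i : {i // ¬ p i} => rk i.1) (fun i j => o i.1 j.1) := by
      unfold MM
      rw [← Fintype.sum_subtype_add_sum_subtype p
        (fun i => (Finset.univ.filter fun j => rk j < rk i).sup (o i))]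
      apply add_le_add
      · apply Finset.sum_le_sum
        intro i _
        apply Finset.sup_le
        intro j hj
        rw [Finset.mem_filter] at hj
        by_cases hpj : p j
        · exact Finset.le_sup (f := fun j : {i // p i} => o i.1 j.1) (b := ⟨j, hpj⟩)
            (Finset.mem_filter.mpr ⟨Finset.mem_univ _, hj.2⟩)
        · rw [(hcross _ _ i.2 hpj).1]
          exact Nat.zero_le _
      · apply Finset.sum_le_sum
        intro i _
        apply Finset.sup_le
        intro j hj
        rw [Finset.mem_filter] at hj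
        by_cases hpj : p j
        · rw [(hcross _ _ hpj i.2).2]
          exact Nat.zero_le _
        · exact Finset.le_sup (f := fun j : {i // ¬ p i} => o i.1 j.1) (b := ⟨j, hpj⟩)
            (Finset.mem_filter.mpr ⟨Finset.mem_univ _, hj.2⟩)
    have hEE' : (EE o : ℤ) ≤ EE (fun i j : {i // p i} => o i.1 j.1) +
        EE (fun i j : {i // ¬ p i} => o i.1 j.1) := by exact_mod_cast hEE
    have hMM' : (MM rk o : ℤ) ≤ MM (fun i : {i // p i} => rk i.1) (fun i j => o i.1 j.1) +
        MM (fun i : {i // ¬ p i} => rk i.1) (fun i j => o i.1 j.1) := by exact_mod_cast hMM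
    show (EE o : ℤ) + MM rk o - 4 * ℓ * BB μ ≤ 4 * Q.ord v N.det
    rw [← hBB, ← e3]
    have : 4 * ℓ * (BB (fun i : {i // p i} => (μ ∘ σ.symm) i.1) +
        BB (fun i : {i // ¬ p i} => (μ ∘ σ.symm) i.1)) =
        4 * ℓ * BB (fun i : {i // p i} => (μ ∘ σ.symm) i.1) +
        4 * ℓ * BB (fun i : {i // ¬ p i} => (μ ∘ σ.symm) i.1) := by ring
    rw [this]
    linarith
  · -- the determinant vanishes
    intro hz
    exfalso
    apply hz
    rw [Matrix.det_apply]
    apply Finset.sum_eq_zero
    intro σ _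
    have h3 : ∃ i, ¬ (p i ↔ ε (σ i) = true) := by
      by_contra hcon
      push Not at hcon
      apply hσ
      refine ⟨σ.symm, fun j => ?_⟩
      have := hcon (σ.symm j)
      rw [Equiv.apply_symm_apply] at this
      exact this
    obtain ⟨i, hi⟩ := h3
    have : ∏ i, (Matrix.of fun j i => if (p i ↔ ε j = true) then mat x w μ j i else 0) (σ i) i =
        0 := by
      apply Finset.prod_eq_zero (Finset.mem_univ i)
      rw [Matrix.of_apply, if_neg hi]
    rw [this, smul_zero]

end Pool.Agent.V7H78.RP.UG
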