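import Pool.Agent.V7H78.RP.UG.B1

/-!
# The determinant lemma
-/

namespace Pool.Agent.V7H78.RP.UG

open Pool.Agent.V7H78.RP.UB Finset

variable {k K : Type*} [Field k] [Field K] [Algebra k K] {Q : PlaceData k K} {v : Q.Pl}

lemma Conf.symm {I : Type*} {x w : I → K} {o : I → I → ℕ} {ℓ : ℤ} (h : Conf Q v x w o ℓ)
    (i j : I) : o i j = o j i := by
  by_cases hij : i = j
  · rw [hij]
  · have h1 := h.ordo i j hij
    have h2 := h.ordo j i (Ne.symm hij)
    have h3 : x i - x j = -(x j - x i) := by ring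
    rw [h3, PlaceData.ord_neg (sub_ne_zero.mpr (h.ne j i (Ne.symm hij))), h2] at h1
    exact_mod_cast h1.symm

lemma Conf.rescale {I : Type*} {x w : I → K} {o : I → I → ℕ} {ℓ : ℤ} (h : Conf Q v x w o ℓ)
    (i₀ j₀ : I) (hij : i₀ ≠ j₀) (hmin : ∀ i j, i ≠ j → o i₀ j₀ ≤ o i j) :
    Conf Q v (fun i => (x i - x i₀) / (x i₀ - x j₀)) (fun i => (w i - w i₀) / (x i₀ - x j₀))
      (fun i j => o i j - o i₀ j₀) ℓ := by
  have hτ : x i₀ - x j₀ ≠ 0 := sub_ne_zero.mpr (h.ne _ _ hij)
  have hτo : Q.ord v (x i₀ - x j₀) = o i₀ j₀ := h.ordo _ _ hij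
  have hdiv : ∀ (m : ℤ) (z : K), Q.G v m z → Q.G v (m - o i₀ j₀) (z / (x i₀ - x j₀)) := by
    intro m z hz h0
    have hz0 : z ≠ 0 := by
      rintro rfl
      exact h0 (zero_div _)
    rw [PlaceData.ord_div hz0 hτ, hτo]
    linarith [hz hz0]
  refine ⟨?_, ?_, ?_, ?_, ?_, ?_⟩
  · intro i
    simp [h.oii i]
  · intro i j hij' he
    apply h.ne i j hij'
    rw [div_left_inj' hτ] at he
    linear_combination he
  · intro i j hij'
    have h1 : (x i - x i₀) / (x i₀ - x j₀) - (x j - x i₀) / (x i₀ - x j₀) =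
        (x i - x j) / (x i₀ - x j₀) := by
      rw [← sub_div]
      congr 1
      ring
    rw [h1, PlaceData.ord_div (sub_ne_zero.mpr (h.ne _ _ hij')) hτ, hτo, h.ordo _ _ hij']
    have := hmin i j hij'
    omega
  · intro i
    by_cases hi : i = i₀
    · rw [hi]
      simp only [sub_self, zero_div]
      exact PlaceData.G_zero
    · have h1 : Q.G v (o i i₀ : ℤ) (x i - x i₀) := fun _ => (h.ordo _ _ hi).ge
      refine PlaceData.G_mono (hdiv _ _ h1) ?_
      have := hmin i i₀ hi
      omega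
  · intro i
    by_cases hi : i = i₀
    · rw [hi]
      simp only [sub_self, zero_div]
      exact PlaceData.G_zero
    · refine PlaceData.G_mono (hdiv _ _ (h.hww i i₀ hi)) ?_
      have := hmin i i₀ hi
      omega
  · intro i j hij'
    have h1 : (w i - w i₀) / (x i₀ - x j₀) - (w j - w i₀) / (x i₀ - x j₀) =
        (w i - w j) / (x i₀ - x j₀) := by
      rw [← sub_div]
      congr 1
      ring
    rw [h1]
    refine PlaceData.G_mono (hdiv _ _ (h.hww i j hij')) ?_
    have := hmin i j hij'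
    omega

/-- the box of lower monomials -/
def box (q : ℕ × Bool) : Finset (ℕ × Bool) :=
  Finset.range (q.1 + 1) ×ˢ (if q.2 then Finset.univ else {false})

/-- the coefficients -/
def cf (x₀ w₀ τ : K) (a q : ℕ × Bool) : K :=
  (a.1.choose q.1 : K) * x₀ ^ (a.1 - q.1) * τ ^ q.1 * (if a.2 then (if q.2 then τ else w₀) else 1)

lemma expand_entry (x₀ w₀ τ y u : K) (a : ℕ × Bool) :
    (x₀ + τ * y) ^ a.1 * (w₀ + τ * u) ^ a.2.toNat =
      ∑ q ∈ box a, cf x₀ w₀ τ a q * (y ^ q.1 * u ^ q.2.toNat) := by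
  obtain ⟨a, b⟩ := a
  unfold box cf
  rw [Finset.sum_product]
  simp only
  have h1 : (x₀ + τ * y) ^ a = ∑ m ∈ Finset.range (a + 1),
      (a.choose m : K) * x₀ ^ (a - m) * τ ^ m * y ^ m := by
    rw [add_comm, add_pow]
    apply Finset.sum_congr rfl
    intro m _
    rw [mul_pow]
    ring
  rw [h1, Finset.sum_mul]
  apply Finset.sum_congr rfl
  intro m _
  cases b
  · simp
  · simp
    ring

lemma cf_G {x₀ w₀ τ : K} {r : ℕ} {ℓ : ℤ} (hx₀ : Q.G v 0 x₀) (hw₀ : Q.G v (-ℓ) w₀)
    (hτ : Q.G v (r : ℤ) τ) (a q : ℕ × Bool) (hq : q ∈ box a) :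
    Q.G v (r * mdeg q - ℓ * (a.2.toNat - q.2.toNat)) (cf x₀ w₀ τ a q) := by
  obtain ⟨a, b⟩ := a
  obtain ⟨m, c⟩ := q
  unfold cf mdeg
  have h1 : Q.G v 0 ((a.choose m : ℕ) : K) := by
    have := PlaceData.G_alg (Q := Q) (v := v) ((a.choose m : ℕ) : k)
    simpa using this
  have h2 : Q.G v 0 (x₀ ^ (a - m)) := by
    have := PlaceData.G_pow hx₀ (a - m)
    simpa using this
  have h3 : Q.G v (m * r) (τ ^ m) := PlaceData.G_pow hτ m
  have h4 := PlaceData.G_mul (PlaceData.G_mul h1 h2) h3
  simp only [box, Finset.mem_product] at hq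
  cases b
  · have hc : c = false := by simpa using hq.2
    subst hc
    simp only [Bool.false_eq_true, if_false, mul_one, Bool.toNat_false]
    refine PlaceData.G_mono h4 (le_of_eq ?_)
    push_cast
    ring
  · cases c
    · simp only [if_true, Bool.false_eq_true, if_false, Bool.toNat_false, Bool.toNat_true]
      refine PlaceData.G_mono (PlaceData.G_mul h4 hw₀) (le_of_eq ?_)
      push_cast
      ring
    · simp only [if_true, Bool.toNat_true]
      refine PlaceData.G_mono (PlaceData.G_mul h4 hτ) (le_of_eq ?_)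
      push_cast
      ring

/-- The expansion step. -/
lemma expand_step {I : Type*} [Fintype I] [DecidableEq I] (x w : I → K) (o : I → I → ℕ) (ℓ : ℤ)
    (rk : I → ℕ) (hrk : Function.Injective rk) (h : Conf Q v x w o ℓ)
    (i₀ j₀ : I) (hij : i₀ ≠ j₀) (hmin : ∀ i j, i ≠ j → o i₀ j₀ ≤ o i j)
    (hy : ∀ ν : I → ℕ × Bool, Function.Injective ν →
      G4 Q v (EE (fun i j => o i j - o i₀ j₀) + MM rk (fun i j => o i j - o i₀ j₀)
        - 4 * ℓ * BB ν)
        (mat (fun i => (x i - x i₀) / (x i₀ - x j₀)) (fun i => (w i - w i₀) / (x i₀ - x j₀))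
          ν).det)
    (μ : I → ℕ × Bool) :
    G4 Q v (EE o + MM rk o - 4 * ℓ * BB μ) (mat x w μ).det := by
  classical
  have hτ : x i₀ - x j₀ ≠ 0 := sub_ne_zero.mpr (h.ne _ _ hij)
  have hτo : Q.ord v (x i₀ - x j₀) = o i₀ j₀ := h.ordo _ _ hij
  rw [det_expand (fun j => box (μ j)) (fun j q => cf (x i₀) (w i₀) (x i₀ - x j₀) (μ j) q)
    (fun q i => ((x i - x i₀) / (x i₀ - x j₀)) ^ q.1 *
      ((w i - w i₀) / (x i₀ - x j₀)) ^ q.2.toNat) (mat x w μ) (by
      intro j i
      rw [← expand_entry]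
      unfold mat
      rw [Matrix.of_apply]
      congr 2
      · field_simp
        ring
      · field_simp
        ring)]
  apply G4_sum
  intro ν hν
  rw [Fintype.mem_piFinset] at hν
  show G4 Q v _ ((∏ j, cf (x i₀) (w i₀) (x i₀ - x j₀) (μ j) (ν j)) *
    (mat (fun i => (x i - x i₀) / (x i₀ - x j₀)) (fun i => (w i - w i₀) / (x i₀ - x j₀)) ν).det)
  intro hz
  have hz1 := left_ne_zero_of_mul hz
  have hz2 := right_ne_zero_of_mul hz
  have hνinj : Function.Injective ν := by
    intro j j' hjj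
    by_contra hne
    apply hz2
    apply Matrix.det_zero_of_row_eq hne
    ext i
    simp only [mat, Matrix.of_apply, hjj]
  have g1 : Q.G v (∑ j, ((o i₀ j₀ : ℤ) * mdeg (ν j) -
      ℓ * (((μ j).2.toNat : ℤ) - (ν j).2.toNat)))
      (∏ j, cf (x i₀) (w i₀) (x i₀ - x j₀) (μ j) (ν j)) :=
    PlaceData.G_prod _ _ _ fun j _ => cf_G (h.hx i₀) (h.hw i₀) (fun _ => hτo.ge) _ _ (hν j)
  have g2 := hy ν hνinj hz2
  have g1' := g1 hz1
  have g3 := sum_deg_inj ν hνinj
  have e1 : ∑ j, ((o i₀ j₀ : ℤ) * mdeg (ν j) - ℓ * (((μ j).2.toNat : ℤ) - (ν j).2.toNat)) =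
      (o i₀ j₀ : ℤ) * ∑ j, (mdeg (ν j) : ℤ) - ℓ * (BB μ - BB ν) := by
    unfold BB
    rw [Finset.sum_sub_distrib, ← Finset.mul_sum, ← Finset.mul_sum, Finset.sum_sub_distrib]
  rw [e1] at g1'
  rw [Q.ord_mul v _ _ hz1 hz2]
  -- comparison of sums
  have hEE : (EE o : ℤ) ≤ EE (fun i j => o i j - o i₀ j₀) +
      (o i₀ j₀ : ℤ) * ((Fintype.card I : ℤ) ^ 2 - Fintype.card I) := by
    have h1 : ∀ i j, (o i j : ℤ) ≤ ((o i j - o i₀ j₀ : ℕ) : ℤ) +
        ((o i₀ j₀ : ℤ) - if i = j then (o i₀ j₀ : ℤ) else 0) := by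
      intro i j
      by_cases hij' : i = j
      · rw [if_pos hij', hij', h.oii j]
        simp
      · rw [if_neg hij']
        have := hmin i j hij'
        omega
    unfold EE
    push_cast
    calc ∑ i, ∑ j, (o i j : ℤ) ≤ ∑ i, ∑ j, (((o i j - o i₀ j₀ : ℕ) : ℤ) +
        ((o i₀ j₀ : ℤ) - if i = j then (o i₀ j₀ : ℤ) else 0)) :=
          Finset.sum_le_sum fun i _ => Finset.sum_le_sum fun j _ => h1 i j
      _ = _ := by
          simp only [Finset.sum_add_distrib, Finset.sum_sub_distrib, Finset.sum_const,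
            Finset.sum_ite_eq, Finset.mem_univ, if_true, Finset.card_univ, nsmul_eq_mul]
          ring
  obtain ⟨im, _, him⟩ := Finset.exists_min_image (Finset.univ : Finset I) rk
    ⟨i₀, Finset.mem_univ _⟩
  have hMM : (MM rk o : ℤ) ≤ MM rk (fun i j => o i j - o i₀ j₀) +
      (o i₀ j₀ : ℤ) * ((Fintype.card I : ℤ) - 1) := by
    have h1 : ∀ i, ((Finset.univ.filter fun j => rk j < rk i).sup (o i) : ℕ) ≤
        (Finset.univ.filter fun j => rk j < rk i).sup (fun j => o i j - o i₀ j₀) +
        (o i₀ j₀ - if i = im then o i₀ j₀ else 0) := by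
      intro i
      apply Finset.sup_le
      intro j hj
      have hj' := hj
      rw [Finset.mem_filter] at hj'
      have hne : i ≠ im := by
        intro he
        have := him j (Finset.mem_univ _)
        rw [← he] at this
        omega
      rw [if_neg hne]
      have h2 : o i j - o i₀ j₀ ≤ _ := Finset.le_sup (f := fun j => o i j - o i₀ j₀) hj
      omega
    have h1' : ∀ i, (((Finset.univ.filter fun j => rk j < rk i).sup (o i) : ℕ) : ℤ) ≤
        (((Finset.univ.filter fun j => rk j < rk i).sup (fun j => o i j - o i₀ j₀) : ℕ) : ℤ) +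
        ((o i₀ j₀ : ℤ) - if i = im then (o i₀ j₀ : ℤ) else 0) := by
      intro i
      have := h1 i
      by_cases he : i = im
      · rw [if_pos he] at this ⊢
        omega
      · rw [if_neg he] at this ⊢
        omega
    unfold MM
    push_cast
    calc ∑ i, (((Finset.univ.filter fun j => rk j < rk i).sup (o i) : ℕ) : ℤ) ≤
        ∑ i, ((((Finset.univ.filter fun j => rk j < rk i).sup (fun j => o i j - o i₀ j₀) : ℕ) : ℤ)
          + ((o i₀ j₀ : ℤ) - if i = im then (o i₀ j₀ : ℤ) else 0)) :=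
          Finset.sum_le_sum fun i _ => h1' i
      _ = _ := by
          simp only [Finset.sum_add_distrib, Finset.sum_sub_distrib, Finset.sum_const,
            Finset.sum_ite_eq', Finset.mem_univ, if_true, Finset.card_univ, nsmul_eq_mul]
          ring
  have h5 : (o i₀ j₀ : ℤ) * ((Fintype.card I : ℤ) ^ 2 - 1) ≤
      (o i₀ j₀ : ℤ) * (4 * ∑ j, (mdeg (ν j) : ℤ)) :=
    mul_le_mul_of_nonneg_left g3 (Int.natCast_nonneg _)
  have h6 : (o i₀ j₀ : ℤ) * (4 * ∑ j, (mdeg (ν j) : ℤ)) =
      4 * ((o i₀ j₀ : ℤ) * ∑ j, (mdeg (ν j) : ℤ)) := by ring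
  have h7 : (o i₀ j₀ : ℤ) * ((Fintype.card I : ℤ) ^ 2 - 1) =
      (o i₀ j₀ : ℤ) * ((Fintype.card I : ℤ) ^ 2 - Fintype.card I) +
      (o i₀ j₀ : ℤ) * ((Fintype.card I : ℤ) - 1) := by ring
  have h8 : ℓ * (BB μ - BB ν) = ℓ * BB μ - ℓ * BB ν := by ring
  rw [h8] at g1'
  have h9 : 4 * ℓ * BB μ = 4 * (ℓ * BB μ) := by ring
  have h10 : 4 * ℓ * BB ν = 4 * (ℓ * BB ν) := by ring
  rw [h9]
  rw [h10] at g2
  linarith

/-- **The determinant lemma.** -/
theorem det_lemma (n : ℕ) : ∀ (I : Type) [Fintype I] [DecidableEq I], Fintype.card I ≤ n →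
    ∀ (x w : I → K) (o : I → I → ℕ) (ℓ : ℤ) (rk : I → ℕ), Function.Injective rk →
    Conf Q v x w o ℓ → ∀ μ : I → ℕ × Bool, Function.Injective μ →
    G4 Q v (EE o + MM rk o - 4 * ℓ * BB μ) (mat x w μ).det := by
  induction n with
  | zero =>
    intro I _ _ hI x w o ℓ rk hrk h μ hμ hz
    haveI : IsEmpty I := Fintype.card_eq_zero_iff.mp (Nat.le_zero.mp hI)
    have h1 : (mat x w μ).det = 1 := Matrix.det_isEmpty
    rw [h1, PlaceData.ord_one]
    unfold EE MM BB
    simp
  | succ n ih =>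
    intro I _ _ hI x w o ℓ rk hrk h μ hμ
    classical
    by_cases hoff : (Finset.univ : Finset I).offDiag.Nonempty
    · obtain ⟨⟨i₀, j₀⟩, hmem, hmin⟩ := Finset.exists_min_image _ (fun q : I × I => o q.1 q.2) hoff
      rw [Finset.mem_offDiag] at hmem
      have hij : i₀ ≠ j₀ := hmem.2.2
      have hmin' : ∀ i j, i ≠ j → o i₀ j₀ ≤ o i j := fun i j hne =>
        hmin (i, j) (Finset.mem_offDiag.mpr ⟨Finset.mem_univ _, Finset.mem_univ _, hne⟩)
      apply expand_step x w o ℓ rk hrk h i₀ j₀ hij hmin'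
      intro ν hν
      have hC := h.rescale i₀ j₀ hij hmin'
      set y : I → K := fun i => (x i - x i₀) / (x i₀ - x j₀) with hy
      set u : I → K := fun i => (w i - w i₀) / (x i₀ - x j₀) with hu
      set o' : I → I → ℕ := fun i j => o i j - o i₀ j₀ with ho'
      let p : I → Prop := fun i => i = i₀ ∨ 1 ≤ o' i₀ i
      have hpi : p i₀ := Or.inl rfl
      have hpj : ¬ p j₀ := by
        intro hp
        rcases hp with h1 | h1
        · exact hij h1.symm
        · simp only [ho'] at h1
          omega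
      have hcross : ∀ i j, p i → ¬ p j → o' i j = 0 ∧ o' j i = 0 := by
        intro i j hi hj
        have hsymm := hC.symm j i
        rw [hsymm, and_self]
        by_contra hne
        have hij1 : 1 ≤ o' i j := Nat.one_le_iff_ne_zero.mpr hne
        rcases hi with rfl | hi
        · exact hj (Or.inr hij1)
        · have hji₀ : j ≠ i₀ := fun he => hj (Or.inl he)
          have hij' : i ≠ j := by
            rintro rfl
            exact hj (Or.inr hi)
          by_cases hii₀ : i = i₀
          · subst hii₀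
            exact hj (Or.inr hij1)
          · apply hj
            right
            have e1 := hC.ordo i₀ i (Ne.symm hii₀)
            have e2 := hC.ordo i j hij'
            have e3 := hC.ordo i₀ j (Ne.symm hji₀)
            have g1 : Q.G v 1 (y i₀ - y i) := fun _ => by rw [e1]; exact_mod_cast hi
            have g2 : Q.G v 1 (y i - y j) := fun _ => by rw [e2]; exact_mod_cast hij1
            have g3 := PlaceData.G_add g1 g2
            have g4 : y i₀ - y i + (y i - y j) = y i₀ - y j := by ring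
            rw [g4] at g3
            have g5 := g3 (sub_ne_zero.mpr (hC.ne _ _ (Ne.symm hji₀)))
            rw [e3] at g5
            exact_mod_cast g5
      have hc1 : Fintype.card {i // p i} ≤ n := by
        have := Fintype.card_subtype_lt hpj
        omega
      have hc2 : Fintype.card {i // ¬ p i} ≤ n := by
        have := Fintype.card_subtype_lt (p := fun i => ¬ p i) (x := i₀) (by
          simp only [not_not]
          exact hpi)
        omega
      exact split_step y u o' ℓ rk p hcross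
        (fun μ' hμ' => ih {i // p i} hc1 _ _ _ ℓ (fun i => rk i.1)
          (fun a b hab => Subtype.ext (hrk hab)) hC.sub μ' hμ')
        (fun μ' hμ' => ih {i // ¬ p i} hc2 _ _ _ ℓ (fun i => rk i.1)
          (fun a b hab => Subtype.ext (hrk hab)) hC.sub μ' hμ') ν hν
    · -- at most one point
      have hall : ∀ i j : I, i = j := by
        intro i j
        by_contra hne
        exact hoff ⟨(i, j), Finset.mem_offDiag.mpr ⟨Finset.mem_univ _, Finset.mem_univ _, hne⟩⟩
      have hE : EE o = 0 := by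
        unfold EE
        apply Finset.sum_eq_zero
        intro i _
        apply Finset.sum_eq_zero
        intro j _
        rw [hall i j, h.oii]
      have hM : MM rk o = 0 := by
        unfold MM
        apply Finset.sum_eq_zero
        intro i _
        apply Nat.le_zero.mp
        apply Finset.sup_le
        intro j hj
        rw [hall i j, h.oii]
      intro hz
      have hg : Q.G v (∑ j, -(ℓ * ((μ j).2.toNat : ℤ))) (mat x w μ).det := by
        apply G_det_row
        intro j i
        unfold mat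
        rw [Matrix.of_apply]
        have h1 := PlaceData.G_mul (PlaceData.G_pow (h.hx i) (μ j).1)
          (PlaceData.G_pow (h.hw i) (μ j).2.toNat)
        refine PlaceData.G_mono h1 (le_of_eq ?_)
        ring
      have := hg hz
      rw [Finset.sum_neg_distrib, ← Finset.mul_sum] at this
      rw [hE, hM]
      unfold BB
      push_cast
      linarith

end Pool.Agent.V7H78.RP.UG
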